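import Pool.Agent.Helper93.HH.FDefs

/-!
# HH-FC: sums along the tree paths

The depths (scores) along a tree path are different integers, so the geometric weights sum to at most `2 L`
(`8 L` for the scores with both signs and the scale `2 L`). Branch vertices on the path are at least `r` apart, so
their weights are controlled by disjoint windows of length `r`.
-/

open Set
open Pool.Agent.Helper83.OP
open Pool.Agent.Helper43.HH
open Pool.Agent.Helper93.HH

namespace Pool.Agent.Helper3.HH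

open HD

variable {V P Q : Type} [Finite V] [Finite P] [Finite Q] {D : HD V P Q} {K : ℕ}

/-! ### Geometric sums -/

private theorem geo_block (M : ℕ) (hM : 0 < M) (N : ℕ) :
    ∑ t ∈ Finset.range (M * N), (1 / 2 : ℝ) ^ (t / M) ≤ 2 * M * (1 - (1 / 2) ^ N) := by
  induction N with
  | zero => simp
  | succ N ih =>
    rw [Nat.mul_succ, Finset.sum_range_add]
    have h1 : ∑ x ∈ Finset.range M, (1 / 2 : ℝ) ^ ((M * N + x) / M) = M * (1 / 2) ^ N := by
      rw [Finset.sum_congr rfl (g := fun _ => (1 / 2 : ℝ) ^ N)]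
      · rw [Finset.sum_const, Finset.card_range, nsmul_eq_mul]
      · intro x hx
        rw [Finset.mem_range] at hx
        rw [Nat.mul_add_div hM, Nat.div_eq_of_lt hx, add_zero]
    rw [h1, pow_succ]
    linarith

private theorem geo_set (M : ℕ) (hM : 0 < M) (A : Finset ℕ) :
    ∑ t ∈ A, (1 / 2 : ℝ) ^ (t / M) ≤ 2 * M := by
  have h1 : A ⊆ Finset.range (M * (A.sup id + 1)) := by
    intro t ht
    rw [Finset.mem_range]
    have h2 : t ≤ A.sup id := Finset.le_sup (f := id) ht
    calc t < A.sup id + 1 := by omega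
      _ ≤ M * (A.sup id + 1) := Nat.le_mul_of_pos_left _ hM
  refine (Finset.sum_le_sum_of_subset_of_nonneg h1 fun _ _ _ => by positivity).trans ?_
  refine (geo_block M hM _).trans ?_
  have h3 : (0 : ℝ) ≤ (1 / 2) ^ (A.sup id + 1) := by positivity
  have h4 : (0 : ℝ) ≤ 2 * M := by positivity
  nlinarith

private theorem geo_nat {ι : Type} (M : ℕ) (hM : 0 < M) (s : Finset ι) (g : ι → ℕ)
    (hg : Set.InjOn g s) : ∑ x ∈ s, (1 / 2 : ℝ) ^ (g x / M) ≤ 2 * M := by
  classical
  rw [← Finset.sum_image (s := s) (g := g) (f := fun t => (1 / 2 : ℝ) ^ (t / M)) hg]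
  exact geo_set M hM _

private theorem geo_int {ι : Type} (M : ℕ) (hM : 0 < M) (s : Finset ι) (g : ι → ℤ)
    (hg : Set.InjOn g s) : ∑ x ∈ s, (1 / 2 : ℝ) ^ ((g x).natAbs / M) ≤ 4 * M := by
  classical
  rw [← Finset.sum_filter_add_sum_filter_not s (fun x => 0 ≤ g x)]
  have h1 := geo_nat M hM (s.filter fun x => 0 ≤ g x) (fun x => (g x).natAbs) (by
    intro x hx y hy hxy
    rw [Finset.coe_filter] at hx hy
    have hxy' : (g x).natAbs = (g y).natAbs := hxy
    refine hg hx.1 hy.1 ?_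
    have h2 : 0 ≤ g x := hx.2
    have h3 : 0 ≤ g y := hy.2
    omega)
  have h2 := geo_nat M hM (s.filter fun x => ¬ 0 ≤ g x) (fun x => (g x).natAbs) (by
    intro x hx y hy hxy
    rw [Finset.coe_filter] at hx hy
    have hxy' : (g x).natAbs = (g y).natAbs := hxy
    refine hg hx.1 hy.1 ?_
    have h2 : ¬ 0 ≤ g x := hx.2
    have h3 : ¬ 0 ≤ g y := hy.2
    omega)
  linarith

/-! ### The tree path -/

section path

variable {C : Set V} {ra : V → ℕ} (E : Cel D C ra)

private theorem path_dep (w : V) (j : ℕ) (hj : j ≤ E.dep w) : E.dep (E.par^[j] w) + j = E.dep w :=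
  iter_dep E.par_dep w j hj

private theorem path_ctr (w : V) : ∀ j, j ≤ E.dep w → E.ctr (E.par^[j] w) = E.ctr w := by
  intro j
  induction j with
  | zero => intro _; rfl
  | succ j ih =>
    intro hj
    have h1 := path_dep E w j (by omega)
    rw [Function.iterate_succ_apply', E.par_ctr _ (by omega), ih (by omega)]

private theorem path_sc (w : V) (j : ℕ) (hj : j ≤ E.dep w) : E.sc (E.par^[j] w) = E.sc w - j := by
  have h1 := path_dep E w j hj
  unfold Cel.sc
  rw [path_ctr E w j hj]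
  omega

private theorem path_walk (w : V) : ∀ j k, j + k ≤ E.dep w →
    ∃ W : D.N.Walk (E.par^[j] w) (E.par^[j + k] w), W.length = k := by
  intro j k
  induction k with
  | zero => intro _; exact ⟨SimpleGraph.Walk.nil, rfl⟩
  | succ k ih =>
    intro hk
    obtain ⟨W, hW⟩ := ih (by omega)
    have h1 := path_dep E w (j + k) (by omega)
    have h2 := E.par_adj (E.par^[j + k] w) (by omega)
    have h3 : E.par^[j + (k + 1)] w = E.par (E.par^[j + k] w) :=
      Function.iterate_succ_apply' E.par (j + k) w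
    rw [h3]
    exact ⟨W.concat h2, by rw [SimpleGraph.Walk.length_concat, hW]⟩

end path

/-- the sum of the geometric decay along a tree path -/
theorem chain_dep (hD : D.Ok) (S : Sys D K) (w : V) (n : ℕ) (hn : n ≤ S.E.dep w) :
    ∑ j ∈ Finset.range (n + 1), (1 / 2 : ℝ) ^ (S.E.dep (S.E.par^[j] w) / D.L) ≤ 2 * D.L := by
  have hL : 0 < D.L := by have := hD.r_pos; have := hD.r_le; omega
  refine geo_nat D.L hL _ (fun j => S.E.dep (S.E.par^[j] w)) ?_
  intro i hi j hj hij
  rw [Finset.coe_range] at hi hj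
  have hi' : i < n + 1 := hi
  have hj' : j < n + 1 := hj
  have h1 := path_dep S.E w i (by omega)
  have h2 := path_dep S.E w j (by omega)
  have h3 : S.E.dep (S.E.par^[i] w) = S.E.dep (S.E.par^[j] w) := hij
  omega

/-- the same with the degrees and the scores -/
theorem chain_deg (hD : D.Ok) (S : Sys D K) (w : V) (hw : w ∈ D.VN) (n : ℕ)
    (hn : n ≤ S.E.dep w) :
    ∑ j ∈ Finset.range (n + 1), (deg D.N (S.E.par^[j] w) : ℝ) *
      (1 / 2 : ℝ) ^ ((S.E.sc (S.E.par^[j] w)).natAbs / (2 * D.L)) ≤ 100 * (D.Kh + 1) * D.L := by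
  classical
  have hL : 0 < D.L := by have := hD.r_pos; have := hD.r_le; omega
  have hM : 0 < 2 * D.L := by omega
  have hVN : ∀ j ∈ Finset.range (n + 1), S.E.par^[j] w ∈ D.VN := by
    intro j hj
    rw [Finset.mem_range] at hj
    obtain ⟨W, -⟩ := path_walk S.E w 0 j (by omega)
    rw [zero_add] at W
    exact VN_of_walk W hw W.end_mem_support
  set f : ℕ → ℝ := fun j => (1 / 2 : ℝ) ^ ((S.E.sc (S.E.par^[j] w)).natAbs / (2 * D.L)) with hf
  have hf0 : ∀ j, 0 ≤ f j := fun j => by rw [hf]; positivity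
  rw [← Finset.sum_filter_add_sum_filter_not (Finset.range (n + 1))
    (fun j => D.dg (S.E.par^[j] w) = 2)]
  -- the vertices of degree two
  have h1 : ∑ j ∈ (Finset.range (n + 1)).filter (fun j => D.dg (S.E.par^[j] w) = 2),
      (deg D.N (S.E.par^[j] w) : ℝ) * f j ≤ 2 * (4 * ((2 * D.L : ℕ) : ℝ)) := by
    have h2 : ∑ j ∈ (Finset.range (n + 1)).filter (fun j => D.dg (S.E.par^[j] w) = 2),
        (deg D.N (S.E.par^[j] w) : ℝ) * f j ≤ ∑ j ∈ Finset.range (n + 1), 2 * f j := by
      refine (Finset.sum_le_sum fun j hj => ?_).trans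
        (Finset.sum_le_sum_of_subset_of_nonneg (Finset.filter_subset _ _) fun j _ _ => by
          have := hf0 j; positivity)
      rw [Finset.mem_filter] at hj
      refine mul_le_mul_of_nonneg_right ?_ (hf0 j)
      have h3 := hj.2
      unfold HD.dg at h3
      have h4 : deg D.N (S.E.par^[j] w) ≤ 2 := by omega
      exact_mod_cast h4
    refine h2.trans ?_
    rw [← Finset.mul_sum]
    refine mul_le_mul_of_nonneg_left ?_ (by norm_num)
    refine geo_int (2 * D.L) hM _ (fun j => S.E.sc (S.E.par^[j] w)) ?_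
    intro i hi j hj hij
    rw [Finset.coe_range] at hi hj
    have hi' : i < n + 1 := hi
    have hj' : j < n + 1 := hj
    have h3 : S.E.sc (S.E.par^[i] w) = S.E.sc (S.E.par^[j] w) := hij
    rw [path_sc S.E w i (by omega), path_sc S.E w j (by omega)] at h3
    omega
  -- the branch vertices
  set B := (Finset.range (n + 1)).filter (fun j => ¬ D.dg (S.E.par^[j] w) = 2) with hB
  have hB3 : ∀ j ∈ B, j < n + 1 ∧ 3 ≤ D.dg (S.E.par^[j] w) := by
    intro j hj
    rw [hB, Finset.mem_filter] at hj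
    have := hD.two _ (hVN j hj.1)
    have := hj.2
    exact ⟨Finset.mem_range.1 hj.1, by omega⟩
  have hBr : ∀ i ∈ B, ∀ j ∈ B, i < j → D.r ≤ j - i := by
    intro i hi j hj hij
    obtain ⟨hi1, hi2⟩ := hB3 i hi
    obtain ⟨hj1, hj2⟩ := hB3 j hj
    have h0 := path_walk S.E w i (j - i) (by omega)
    rw [show i + (j - i) = j by omega] at h0
    obtain ⟨W, hW⟩ := h0
    rw [← hW]
    refine hD.thr_ge _ _ W ?_ hi2 hj2
    intro he
    have h3 := path_dep S.E w i (by omega)
    have h4 := path_dep S.E w j (by omega)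
    rw [he] at h3
    omega
  have h5 : ∑ p ∈ B ×ˢ Finset.range D.r,
      (1 / 2 : ℝ) ^ ((S.E.sc w - ((p.1 + p.2 : ℕ) : ℤ)).natAbs / (2 * D.L)) ≤
      4 * ((2 * D.L : ℕ) : ℝ) := by
    refine geo_int (2 * D.L) hM _ (fun p : ℕ × ℕ => S.E.sc w - ((p.1 + p.2 : ℕ) : ℤ)) ?_
    rintro ⟨i, a⟩ hi ⟨j, b⟩ hj hij
    rw [Finset.coe_product] at hi hj
    have hi1 : i ∈ B := hi.1
    have hj1 : j ∈ B := hj.1
    have ha : a < D.r := Finset.mem_range.1 hi.2
    have hb : b < D.r := Finset.mem_range.1 hj.2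
    have h6 : S.E.sc w - ((i + a : ℕ) : ℤ) = S.E.sc w - ((j + b : ℕ) : ℤ) := hij
    have h7 : i + a = j + b := by omega
    rcases lt_trichotomy i j with h | h | h
    · have := hBr i hi1 j hj1 h
      omega
    · subst h
      have : a = b := by omega
      rw [this]
    · have := hBr j hj1 i hi1 h
      omega
  have h6 : (D.r : ℝ) * ∑ j ∈ B, f j ≤ 2 * (4 * ((2 * D.L : ℕ) : ℝ)) := by
    refine le_trans ?_ (mul_le_mul_of_nonneg_left h5 (by norm_num : (0 : ℝ) ≤ 2))
    rw [Finset.sum_product, Finset.mul_sum, Finset.mul_sum]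
    refine Finset.sum_le_sum fun j hj => ?_
    obtain ⟨hj1, -⟩ := hB3 j hj
    rw [Finset.mul_sum]
    have h7 : (D.r : ℝ) * f j = ∑ _a ∈ Finset.range D.r, f j := by
      rw [Finset.sum_const, Finset.card_range, nsmul_eq_mul]
    rw [h7]
    refine Finset.sum_le_sum fun a ha => ?_
    rw [Finset.mem_range] at ha
    have hr := hD.r_le
    rw [hf]
    simp only
    rw [path_sc S.E w j (by omega)]
    have h8 : (S.E.sc w - ((j + a : ℕ) : ℤ)).natAbs / (2 * D.L) ≤
        (S.E.sc w - (j : ℤ)).natAbs / (2 * D.L) + 1 := by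
      rw [← Nat.add_div_right _ hM]
      refine Nat.div_le_div_right ?_
      omega
    calc (1 / 2 : ℝ) ^ ((S.E.sc w - (j : ℤ)).natAbs / (2 * D.L))
        = 2 * (1 / 2 : ℝ) ^ ((S.E.sc w - (j : ℤ)).natAbs / (2 * D.L) + 1) := by
          rw [pow_succ]; ring
      _ ≤ 2 * (1 / 2 : ℝ) ^ ((S.E.sc w - ((j + a : ℕ) : ℤ)).natAbs / (2 * D.L)) :=
          mul_le_mul_of_nonneg_left
            (pow_le_pow_of_le_one (by norm_num) (by norm_num) h8) (by norm_num)
  have h9 : ∑ j ∈ B, (deg D.N (S.E.par^[j] w) : ℝ) * f j ≤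
      (D.Kh : ℝ) * (2 * (4 * ((2 * D.L : ℕ) : ℝ))) := by
    refine le_trans ?_ (mul_le_mul_of_nonneg_left h6 (Nat.cast_nonneg D.Kh))
    rw [← mul_assoc, Finset.mul_sum]
    refine Finset.sum_le_sum fun j hj => ?_
    refine mul_le_mul_of_nonneg_right ?_ (hf0 j)
    have h10 : S.E.par^[j] w ∈ D.VN := hVN j (Finset.mem_range.2 (hB3 j hj).1)
    have h11 := hD.dg_le _ (VN_U hD h10)
    unfold HD.dg at h11
    have h12 : deg D.N (S.E.par^[j] w) ≤ D.Kh * D.r := by omega
    exact_mod_cast h12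
  have h13 := add_le_add h1 h9
  refine h13.trans ?_
  push_cast
  have h14 : (0 : ℝ) ≤ D.Kh := Nat.cast_nonneg _
  have h15 : (0 : ℝ) ≤ D.L := Nat.cast_nonneg _
  nlinarith [mul_nonneg h14 h15]

end Pool.Agent.Helper3.HH
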